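import Pool.Agent.MWGR.StmtsF

/-!
# Block MWGR, row FRM: lists with few letters
-/

namespace Pool.Agent.MWGR.H36

open Pool.Agent.MWGR

/-- A list of zeros only. -/
theorem all_zero {l : List ℕ} (h : ∀ c ∈ l, c = 0) : l = X (l.count 0) := by
  have h1 : l = List.replicate l.length 0 := List.eq_replicate_iff.mpr ⟨rfl, h⟩
  have h2 : l.count 0 = l.length := List.count_eq_length.mpr (fun c hc => (h c hc).symm)
  rw [h2]
  exact h1

/-- A list over `0, 1` without `1`. -/
theorem no_one {l : List ℕ} (h : ∀ c ∈ l, c = 0 ∨ c = 1) (h1 : l.count 1 = 0) :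
    l = X (l.count 0) := by
  apply all_zero
  intro c hc
  rcases h c hc with hc0 | hc1
  · exact hc0
  · exfalso
    subst hc1
    exact (List.count_eq_zero.mp h1) hc

/-- A list over `0, 1` with one `1`. -/
theorem one_one {l : List ℕ} (h : ∀ c ∈ l, c = 0 ∨ c = 1) (h1 : l.count 1 = 1) :
    ∃ s t, l = X s ++ 1 :: X t ∧ l.count 0 = s + t := by
  have hm : (1 : ℕ) ∈ l := List.count_pos_iff.mp (by omega)
  obtain ⟨u, v, rfl⟩ := List.append_of_mem hm
  have hc : u.count 1 = 0 ∧ v.count 1 = 0 := by
    simp only [List.count_append, List.count_cons_self] at h1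
    omega
  have hu := no_one (l := u) (fun c hc => h c (by simp [hc])) hc.1
  have hv := no_one (l := v) (fun c hc => h c (by simp [hc])) hc.2
  refine ⟨u.count 0, v.count 0, ?_, ?_⟩
  · rw [← hu, ← hv]
  · rw [List.count_append, List.count_cons_of_ne (by decide)]

theorem frm : FrmStmt := by
  refine ⟨fun l h => ⟨fun h1 => one_one h h1, fun h1 => no_one h h1, fun h0 => ?_⟩, ?_⟩
  · have ha : ∀ c ∈ l, c = 1 := by
      intro c hc
      rcases h c hc with hc0 | hc1
      · exfalso
        subst hc0
        exact (List.count_eq_zero.mp h0) hc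
      · exact hc1
    have h1 : l = List.replicate l.length 1 := List.eq_replicate_iff.mpr ⟨rfl, ha⟩
    have h2 : l.count 1 = l.length := List.count_eq_length.mpr (fun c hc => (ha c hc).symm)
    rw [h2]
    exact h1
  · intro l b hb0 hb1 h h1 hb
    have hm : b ∈ l := List.count_pos_iff.mp (by omega)
    obtain ⟨u, v, rfl⟩ := List.append_of_mem hm
    have hcb : u.count b = 0 ∧ v.count b = 0 := by
      simp only [List.count_append, List.count_cons_self] at hb
      omega
    have hc1 : u.count 1 + v.count 1 = 1 := by
      rw [List.count_append, List.count_cons_of_ne hb1] at h1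
      exact h1
    have hu : ∀ c ∈ u, c = 0 ∨ c = 1 := by
      intro c hc
      rcases h c (by simp [hc]) with h2 | h2 | h2
      · exact Or.inl h2
      · exact Or.inr h2
      · exfalso
        subst h2
        exact (List.count_eq_zero.mp hcb.1) hc
    have hv : ∀ c ∈ v, c = 0 ∨ c = 1 := by
      intro c hc
      rcases h c (by simp [hc]) with h2 | h2 | h2
      · exact Or.inl h2
      · exact Or.inr h2
      · exfalso
        subst h2
        exact (List.count_eq_zero.mp hcb.2) hc
    have h0 : (u ++ b :: v).count 0 = u.count 0 + v.count 0 := by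
      rw [List.count_append, List.count_cons_of_ne hb0]
    rcases Nat.eq_zero_or_pos (u.count 1) with hu1 | hu1
    · have hv1 : v.count 1 = 1 := by omega
      have hu' := no_one hu hu1
      obtain ⟨s, t, hv', hst⟩ := one_one hv hv1
      refine ⟨u.count 0, s, t, by rw [h0]; omega, Or.inr ?_⟩
      rw [← hu', ← hv']
    · have hu1' : u.count 1 = 1 := by omega
      have hv1 : v.count 1 = 0 := by omega
      have hv' := no_one hv hv1
      obtain ⟨s, t, hu', hst⟩ := one_one hu hu1'
      refine ⟨s, t, v.count 0, by rw [h0]; omega, Or.inl ?_⟩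
      rw [← hv']
      nth_rewrite 1 [hu']
      simp

end Pool.Agent.MWGR.H36
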